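import Pool.Agent.Run7.h312.CM.Defs
import Pool.Agent.Run7.h312.AB.Reg
import Pool.Agent.Y116.MT.Trace
import Pool.Agent.W495.FM.Hom
import Pool.Agent.W495.FM.Bridge

/-!
# Chow motives over a finite field generated by abelian varieties: the general theorem
-/

set_option autoImplicit false
set_option linter.unusedSectionVars false

open CategoryTheory CategoryTheory.Limits MonoidalCategory

universe v u

namespace Pool.Agent.Run7.h312.CM

open Pool.Agent.Run7.h312.AB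

section nil

variable {A : Type*} [Ring A] [Algebra ℚ A] {T : Type*} [Zero T] (τ : A → T)
  (hnil : ∀ a, IsNilpotent a → τ a = 0) (hnd : ∀ a, a ≠ 0 → ∃ b, τ (b * a) ≠ 0)

include hnil hnd

/-- A finite-dimensional algebra with a non-degenerate trace which vanishes on nilpotent elements is
von Neumann regular. -/
theorem regular_of_nil [Module.Finite ℚ A] (a : A) : ∃ b, a * b * a = a := by
  have h2 : IsArtinianRing A := IsArtinianRing.of_finite ℚ A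
  have h3 : Ring.jacobson A = ⊥ := by
    rw [eq_bot_iff]
    intro x hx
    rw [Submodule.mem_bot]
    by_contra hne
    obtain ⟨b, hb⟩ := hnd x hne
    apply hb
    have h4 : b * x ∈ Ring.jacobson A := Ideal.mul_mem_left _ _ hx
    obtain ⟨n, hn⟩ : IsNilpotent (Ring.jacobson A) := IsSemiprimaryRing.isNilpotent
    have h5 : (b * x) ^ n = 0 := by
      have := Ideal.pow_mem_pow h4 n
      rwa [hn] at this
    exact hnil _ ⟨n, h5⟩
  have h4 : IsSemisimpleRing A := IsArtinianRing.isSemisimpleRing_iff_jacobson.2 h3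
  obtain ⟨N, hN⟩ := exists_isCompl (Submodule.span A ({a} : Set A))
  have h5 : (1 : A) ∈ Submodule.span A ({a} : Set A) ⊔ N := by
    rw [hN.sup_eq_top]
    trivial
  obtain ⟨x, hx, y, hy, hxy⟩ := Submodule.mem_sup.1 h5
  obtain ⟨b, rfl⟩ := Submodule.mem_span_singleton.1 hx
  refine ⟨b, ?_⟩
  have h6 : a * y ∈ N := N.smul_mem a hy
  have h7 : a * y = a - a * b * a := by
    have : y = 1 - b * a := by rw [← hxy]; simp
    rw [this, mul_sub, mul_one, mul_assoc]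
  have h8 : a * y ∈ Submodule.span A ({a} : Set A) := by
    rw [h7]
    exact Submodule.sub_mem _ (Submodule.mem_span_singleton_self a)
      (Submodule.mem_span_singleton.2 ⟨a * b, rfl⟩)
  have h9 : a * y = 0 := by
    have := hN.disjoint.le_bot ⟨h8, h6⟩
    simpa using this
  rw [h7, sub_eq_zero] at h9
  exact h9.symm

end nil

section cat

variable {𝒞 : Type} [Category.{0} 𝒞] [Preadditive 𝒞] [Linear ℚ 𝒞] [MonoidalCategory 𝒞]
  [MonoidalPreadditive 𝒞] [SymmetricCategory 𝒞] [RightRigidCategory 𝒞]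

lemma nm_zero {M N : 𝒞} (f : M ⟶ N) (h : Pool.Agent.Y116.MT.nm f = 0) : f = 0 := by
  have h0 : (0 : 𝟙_ 𝒞 ⟶ N ⊗ Mᘁ) ▷ M = 0 := (tensorRight M).map_zero _ _
  rw [Pool.Agent.Y116.MT.nm_recover f, h, h0, zero_comp, comp_zero]

/-- Finiteness of the groups of morphisms. -/
lemma hom_finite (hfin : ∀ X : 𝒞, Module.Finite ℚ (𝟙_ 𝒞 ⟶ X)) (M N : 𝒞) :
    Module.Finite ℚ (M ⟶ N) := by
  have := hfin (N ⊗ Mᘁ)
  let f : (M ⟶ N) →+ (𝟙_ 𝒞 ⟶ N ⊗ Mᘁ) := AddMonoidHom.mk'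
    (fun a => Pool.Agent.Y116.MT.nm a) fun a b => by
      simp only [Pool.Agent.Y116.MT.nm, MonoidalPreadditive.add_whiskerRight,
        Preadditive.comp_add]
  refine Module.Finite.of_injective f.toRatLinearMap ?_
  rw [injective_iff_map_eq_zero]
  intro a ha
  exact nm_zero a ha

theorem exists_tr_ne (hR : RatEqNum 𝒞) {X : 𝒞} {a : X ⟶ X} (ha : a ≠ 0) :
    ∃ b : X ⟶ X, tr (a ≫ b) ≠ 0 := by
  have h1 : Pool.Agent.Y116.MT.nm a ≠ 0 := fun h => ha (nm_zero a h)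
  obtain ⟨r, hr⟩ : ∃ r : X ⊗ Xᘁ ⟶ 𝟙_ 𝒞, Pool.Agent.Y116.MT.nm a ≫ r ≠ 0 := by
    by_contra hcon
    push Not at hcon
    exact h1 (hR _ _ hcon)
  obtain ⟨b, hb⟩ := Pool.Agent.Y116.MT.exists_tr r
  refine ⟨b, ?_⟩
  change Pool.Agent.Y116.MT.tr (a ≫ b) ≠ 0
  rwa [← hb]

theorem end_regular (hR : RatEqNum 𝒞) (hfin : ∀ X : 𝒞, Module.Finite ℚ (𝟙_ 𝒞 ⟶ X))
    (htr : ∀ (M : 𝒞) (a : End M), IsNilpotent a → tr (X := M) a = 0) {X : 𝒞} (a : X ⟶ X) :
    ∃ b : X ⟶ X, a ≫ b ≫ a = a := by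
  have h1 : Module.Finite ℚ (End X) := hom_finite hfin X X
  obtain ⟨b, hb⟩ := regular_of_nil (A := End X) (fun a : End X => tr (X := X) a) (htr X)
    (fun a ha => exists_tr_ne hR (a := (a : X ⟶ X)) ha) (a : End X)
  exact ⟨b, hb⟩

theorem regular_of (hR : RatEqNum 𝒞) (hfin : ∀ X : 𝒞, Module.Finite ℚ (𝟙_ 𝒞 ⟶ X))
    (htr : ∀ (M : 𝒞) (a : End M), IsNilpotent a → tr (X := M) a = 0) [HasFiniteBiproducts 𝒞]
    {X Y : 𝒞} (f : X ⟶ Y) : ∃ g : Y ⟶ X, f ≫ g ≫ f = f := by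
  have hbin : HasBinaryBiproducts 𝒞 := hasBinaryBiproducts_of_finite_biproducts 𝒞
  obtain ⟨b, hb⟩ := end_regular hR hfin htr (X := X ⊞ Y) (biprod.fst ≫ f ≫ biprod.inr)
  refine ⟨biprod.inr ≫ b ≫ biprod.fst, ?_⟩
  have h1 := congrArg (fun k => biprod.inl ≫ k ≫ biprod.snd) hb
  simpa using h1

/-- Rational and numerical equivalence coincide on the object. -/
def Num (X : 𝒞) : Prop := ∀ z : 𝟙_ 𝒞 ⟶ X, (∀ g : X ⟶ 𝟙_ 𝒞, z ≫ g = 0) → z = 0

lemma num_of_retract {n : ℕ} [HasFiniteBiproducts 𝒞] {X : Fin n → 𝒞} (hX : ∀ k, Num (X k))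
    {N : 𝒞} (i : N ⟶ ⨁ X) (r : ⨁ X ⟶ N) (h : i ≫ r = 𝟙 N) : Num N := by
  intro z hz
  have h1 : z ≫ i = 0 := by
    apply biproduct.hom_ext
    intro k
    rw [zero_comp]
    refine hX k _ fun g => ?_
    rw [Category.assoc, Category.assoc]
    exact hz _
  rw [← Category.comp_id z, ← h, ← Category.assoc, h1, zero_comp]

lemma finite_of_retract {n : ℕ} [HasFiniteBiproducts 𝒞] {X : Fin n → 𝒞}
    (hX : ∀ k, Module.Finite ℚ (𝟙_ 𝒞 ⟶ X k)) {N : 𝒞} (i : N ⟶ ⨁ X) (r : ⨁ X ⟶ N)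
    (h : i ≫ r = 𝟙 N) : Module.Finite ℚ (𝟙_ 𝒞 ⟶ N) := by
  let f : (𝟙_ 𝒞 ⟶ N) →+ (∀ k, 𝟙_ 𝒞 ⟶ X k) := AddMonoidHom.mk'
    (fun z k => z ≫ i ≫ biproduct.π X k) fun a b => by
      funext k
      exact Preadditive.add_comp _ _ _ _ _ _
  refine Module.Finite.of_injective f.toRatLinearMap ?_
  rw [injective_iff_map_eq_zero]
  intro z hz
  have h1 : z ≫ i = 0 := by
    apply biproduct.hom_ext
    intro k
    rw [zero_comp, Category.assoc]
    exact congrFun hz k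
  rw [← Category.comp_id z, ← h, ← Category.assoc, h1, zero_comp]

end cat

section cyc

open Pool.Agent.W495.TA Pool.Agent.W495.FM

variable {𝒞 : Type} [Category.{0} 𝒞] [Preadditive 𝒞] [Linear ℚ 𝒞] [MonoidalCategory 𝒞]
  {Ω : Type} [Field Ω] [IsAlgClosed Ω] [CharZero Ω] {p : ℕ} [Fact p.Prime]
  {ν : PadicAlgCl p ≃+* ℂ} {Y : RedAV p ν} {C : Cycles Ω Y}

lemma twist_num (hC : IsChow C) (hT : TateHolds C) {X : 𝒞} (hX : IsTwistOf C X) : Num X := by
  rcases hX with hX | ⟨c, c', f, f', hd, hadd, hf, hf', hint⟩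
  · exact fun z _ => hX z
  · intro z hz
    by_cases hu : 𝟙 (𝟙_ 𝒞) = 0
    · rw [← Category.id_comp z, hu, zero_comp]
    obtain ⟨r, y, z', -, -, -, hx⟩ := exists_dual hC hT hd
    have h0 : f 0 = 0 := by
      have := hadd 0 0
      rwa [add_zero, left_eq_add] at this
    apply hf.1
    rw [h0, ← hx (f z)]
    refine Finset.sum_eq_zero fun a _ => ?_
    obtain ⟨w, hw⟩ := hf'.2 (y a)
    have h1 := hint z w
    rw [hz, hw] at h1
    rw [(smul_eq_zero.1 h1.symm).resolve_right hu, zero_smul]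

lemma twist_finite (hC : IsChow C) (hT : TateHolds C) {X : 𝒞} (hX : IsTwistOf C X) :
    Module.Finite ℚ (𝟙_ 𝒞 ⟶ X) := by
  rcases hX with hX | ⟨c, c', f, f', hd, hadd, hf, hf', hint⟩
  · have : Subsingleton (𝟙_ 𝒞 ⟶ X) := ⟨fun a b => (hX a).trans (hX b).symm⟩
    infer_instance
  · obtain ⟨r, y, z', -, -, -, hx⟩ := exists_dual hC hT hd
    have h1 : Module.Finite ℚ (C.CH c) := by
      refine Module.Finite.of_surjective (M := Fin r → ℚ)
        (∑ a, (LinearMap.proj a : (Fin r → ℚ) →ₗ[ℚ] ℚ).smulRight (z' a)) ?_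
      intro x
      refine ⟨fun a => C.int c' c (y a) x, ?_⟩
      rw [LinearMap.sum_apply]
      exact hx x
    let F : (𝟙_ 𝒞 ⟶ X) →+ C.CH c := AddMonoidHom.mk' f hadd
    exact Module.Finite.of_injective F.toRatLinearMap hf.1

/-- **The general theorem.** -/
theorem abelianFor_of {p : ℕ} [Fact p.Prime] {ν : PadicAlgCl p ≃+* ℂ}
    {S : ∀ (Ω : Type) [Field Ω] [CharZero Ω] (Y : RedAV p ν), Cycles Ω Y → Prop}
    (h : ∀ (Ω : Type) [Field Ω] [IsAlgClosed Ω] [CharZero Ω] (Y : RedAV p ν) (C : Cycles Ω Y),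
      S Ω Y C → IsChow C ∧ TateHolds C) : AbelianFor ν S := by
  intro Ω _ _ _ 𝒞 _ _ _ _ _ _ _ _ _ htr hgen
  have hR : RatEqNum 𝒞 := by
    intro N
    obtain ⟨n, X, i, r, hir, hX⟩ := hgen N
    refine num_of_retract (fun k => ?_) i r hir
    obtain ⟨Y, C, hS, hk⟩ := hX k
    obtain ⟨h1, h2⟩ := h Ω Y C hS
    exact twist_num h1 h2 hk
  have hfin : ∀ N : 𝒞, Module.Finite ℚ (𝟙_ 𝒞 ⟶ N) := by
    intro N
    obtain ⟨n, X, i, r, hir, hX⟩ := hgen N
    refine finite_of_retract (fun k => ?_) i r hir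
    obtain ⟨Y, C, hS, hk⟩ := hX k
    obtain ⟨h1, h2⟩ := h Ω Y C hS
    exact twist_finite h1 h2 hk
  have hreg : ∀ (M N : 𝒞) (f : M ⟶ N), ∃ g : N ⟶ M, f ≫ g ≫ f = f :=
    fun M N f => regular_of hR hfin htr f
  exact ⟨isAbelian_of_regular hreg, hR, hreg⟩

end cyc

end Pool.Agent.Run7.h312.CM
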