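import Pool.Agent.Run7.h312.AB.Defs
import Pool.Agent.W495.FM.Defs

/-!
# Chow motives over a finite field generated by abelian varieties: definitions
-/

set_option autoImplicit false

open CategoryTheory CategoryTheory.Limits MonoidalCategory

namespace Pool.Agent.Run7.h312.CM

open Pool.Agent.W495.TA Pool.Agent.W495.FM Pool.Agent.Run7.h312.AB

noncomputable section

section

variable {𝒞 : Type} [Category.{0} 𝒞] [MonoidalCategory 𝒞]

/-- The trace of an endomorphism. For a correspondence of degree zero from a smooth projective variety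
to itself this is the intersection number with the transpose of the diagonal. -/
def tr [SymmetricCategory 𝒞] [RightRigidCategory 𝒞] {X : 𝒞} (a : X ⟶ X) : 𝟙_ 𝒞 ⟶ 𝟙_ 𝒞 :=
  η_ X Xᘁ ≫ (a ▷ Xᘁ) ≫ (β_ X Xᘁ).hom ≫ ε_ X Xᘁ

variable [Preadditive 𝒞] [Linear ℚ 𝒞]

/-- The cycles of the object `X` are those of a twist `h(Y)(c)` of the motive of the abelian variety
`Y` (with the theory of cycles `C`): the group `Hom(𝟙, h(Y)(c))` is `CH^c(Y)`, the group
`Hom(h(Y)(c), 𝟙)` is `CH^c'(Y)` with `c' = dim Y - c` (Poincaré duality), the composition is the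
intersection number; and for `c < 0` or `c > dim Y` the first group is zero. -/
def IsTwistOf {Ω : Type} [Field Ω] [CharZero Ω] {p : ℕ} [Fact p.Prime] {ν : PadicAlgCl p ≃+* ℂ}
    {Y : RedAV p ν} (C : Cycles Ω Y) (X : 𝒞) : Prop :=
  (∀ z : 𝟙_ 𝒞 ⟶ X, z = 0) ∨
  ∃ (c c' : ℕ) (f : (𝟙_ 𝒞 ⟶ X) → C.CH c) (f' : (X ⟶ 𝟙_ 𝒞) → C.CH c'),
    HasDim Y (c' + c) ∧ (∀ z w, f (z + w) = f z + f w) ∧ Function.Bijective f ∧
    Function.Bijective f' ∧ ∀ z w, z ≫ w = C.int c' c (f' w) (f z) • 𝟙 (𝟙_ 𝒞)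

end

/-- The categories of Chow motives generated by abelian varieties with the property `S` are abelian and
semisimple, and rational and numerical equivalence coincide: let `𝒞` be a pseudo-abelian rigid
tensor category with rational coefficients in which nilpotent endomorphisms have trace zero, such
that every object is a direct summand of a finite direct sum of twists `h(Y)(c)` of motives of
abelian varieties `Y` with the property `S`. Then `𝒞` is abelian, every cycle which is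
numerically equivalent to zero is zero, and all morphisms are von Neumann regular. -/
def AbelianFor {p : ℕ} [Fact p.Prime] (ν : PadicAlgCl p ≃+* ℂ)
    (S : ∀ (Ω : Type) [Field Ω] [CharZero Ω] (Y : RedAV p ν), Cycles Ω Y → Prop) : Prop :=
  ∀ (Ω : Type) [Field Ω] [IsAlgClosed Ω] [CharZero Ω] (𝒞 : Type) [Category.{0} 𝒞]
    [Preadditive 𝒞] [Linear ℚ 𝒞] [MonoidalCategory 𝒞] [MonoidalPreadditive 𝒞]
    [SymmetricCategory 𝒞] [RightRigidCategory 𝒞] [HasFiniteBiproducts 𝒞]
    [IsIdempotentComplete 𝒞],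
    (∀ (M : 𝒞) (a : End M), IsNilpotent a → tr (X := M) a = 0) →
    (∀ N : 𝒞, ∃ (n : ℕ) (X : Fin n → 𝒞) (i : N ⟶ ⨁ X) (r : ⨁ X ⟶ N), i ≫ r = 𝟙 N ∧
      ∀ k, ∃ (Y : RedAV p ν) (C : Cycles Ω Y), S Ω Y C ∧ IsTwistOf C (X k)) →
    IsAbelian 𝒞 ∧ RatEqNum 𝒞 ∧ ∀ (M N : 𝒞) (f : M ⟶ N), ∃ g : N ⟶ M, f ≫ g ≫ f = f

end

end Pool.Agent.Run7.h312.CM
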